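import Pool.Agent.H770Bary.VarT
import Pool.Agent.H770Bary.Bary

set_option autoImplicit false

/-!
# MP_7c2736_pr: the Poincaré constant of Wasserstein barycenters

The inequality of Q1, `√C_P(m) ≤ ∑ λ_i / √κ_i` for every Wasserstein barycenter `m` of
`κ_i`-strongly log-concave measures `μ_i`, is FALSE: there is a counterexample with three measures
on `ℝ⁴` and equal weights. In the same example all three measures split off a curvature-saturating
Gaussian factor in a common direction, so the direction of Q2 in which a common splitting implies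
equality is false as well.
-/

namespace Pool.Agent.Results.MP_7c2736_pr.BarycenterDisproof

open Pool.Agent.H770Bary
open MeasureTheory ProbabilityTheory Filter Topology Set
open scoped ENNReal NNReal RealInnerProductSpace ContDiff

/-- The three measures of the example. -/
noncomputable def mus (α θ δ : ℝ) : Fin 3 → Measure (EuclideanSpace ℝ (Fin 4)) :=
  ![mu1 α θ, mu2 α θ, mu3 δ]

/-- The curvatures of the example. -/
noncomputable def kap (α δ : ℝ) : Fin 3 → ℝ := ![(α ^ 2)⁻¹, (α ^ 2)⁻¹, (4 * δ ^ 2)⁻¹]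

theorem numeric (D V R : ℝ) (hD : 0 < D) (hD1 : D ≤ 1 / 16)
    (hR : R ≤ 11 * (D ^ 3 / 4800) / (3 * D / 8))
    (hV : 1 + 2 * D ≤ (1 + D / 8) * V + (1 + 1 / (D / 8)) * (3 * R)) :
    (1 + D / 8) ^ 2 * (1 + D) < V := by
  have h1 : 11 * (D ^ 3 / 4800) / (3 * D / 8) = 88 / 14400 * D ^ 2 := by field_simp; norm_num
  rw [h1] at hR
  have h2 : (1 + 1 / (D / 8)) * (3 * R) ≤ (1 + 1 / (D / 8)) * (3 * (88 / 14400 * D ^ 2)) := by
    apply mul_le_mul_of_nonneg_left _ (by positivity)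
    linarith
  have h3 : (1 + 1 / (D / 8)) * (3 * (88 / 14400 * D ^ 2)) = 264 / 14400 * (D ^ 2 + 8 * D) := by
    field_simp
    norm_num
  rw [h3] at h2
  have h4 : 1 + 2 * D - 264 / 14400 * (D ^ 2 + 8 * D) ≤ (1 + D / 8) * V := by linarith
  have h5 : (1 + D / 8) * ((1 + D / 8) ^ 2 * (1 + D)) < (1 + D / 8) * V := by
    refine lt_of_lt_of_le ?_ h4
    have e : (1 + D / 8) * ((1 + D / 8) ^ 2 * (1 + D)) = 1 + 11 / 8 * D + 27 / 64 * D ^ 2 +
        25 / 512 * D ^ 3 + 1 / 512 * D ^ 4 := by ring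
    rw [e]
    have d2 : D ^ 2 ≤ D * (1 / 16) := by nlinarith
    have d3 : D ^ 3 ≤ D * (1 / 16) := by nlinarith
    have d4 : D ^ 4 ≤ D * (1 / 16) := by nlinarith [sq_nonneg D, sq_nonneg (D ^ 2)]
    nlinarith
  have h6 : 0 < 1 + D / 8 := by positivity
  exact lt_of_mul_lt_mul_left h5 h6.le

/-- **Disproof of Q1 and of Q2** (for Q2: a common splitting does not imply equality). There are
three measures `μ i` on `ℝ⁴`, `μ i` being `κ i`-strongly log-concave and splitting off a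
curvature-saturating Gaussian factor in the common direction `e`, and a Wasserstein barycenter `m`
of them (with weights `w i = 1/3`) whose Poincaré constant is larger than `(∑ i, w i / √(κ i))²`. -/
theorem result : ∃ (w κ : Fin 3 → ℝ) (μ : Fin 3 → Measure (EuclideanSpace ℝ (Fin 4)))
    (e : EuclideanSpace ℝ (Fin 4)) (m : Measure (EuclideanSpace ℝ (Fin 4))),
    (∀ i, w i = 1 / 3) ∧ (∀ i, 0 < w i) ∧ ∑ i, w i = 1 ∧ (∀ i, 0 < κ i) ∧
    (∀ i, StronglyLogConcave (κ i) (μ i)) ∧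
    ‖e‖ = 1 ∧ (∀ i, SplitsOff (κ i) (μ i) e) ∧
    IsBarycenter w μ m ∧
    ENNReal.ofReal ((∑ i, w i / √(κ i)) ^ 2) < poincareConstant m := by
  -- the parameters
  set D : ℝ := cst ^ 2 with hDdef
  have hc0 : 0 < cst := cst_pos
  have hc1 : cst ≤ 1 / 4 := cst_le
  have hD : 0 < D := by positivity
  have hD1 : D ≤ 1 / 16 := by rw [hDdef]; nlinarith
  set δ : ℝ := 3 * D / 8 with hδdef
  set θ : ℝ := D ^ 3 / 4800 with hθdef
  set α : ℝ := (3 - δ) / 2 with hαdef
  set B : ℝ := 1 + δ / 3 with hBdef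
  have hδ : 0 < δ := by positivity
  have hδ1 : δ ≤ 1 := by rw [hδdef]; linarith
  have hθ : 0 < θ := by positivity
  have hθδ : θ ≤ δ / 4 := by
    rw [hθdef, hδdef]
    have d3 : D ^ 3 ≤ D * 1 := by
      have : D ^ 2 ≤ 1 := by nlinarith
      calc D ^ 3 = D * D ^ 2 := by ring
        _ ≤ D * 1 := by gcongr
    linarith
  have hα : 0 < α := by rw [hαdef]; linarith
  have hθα : θ ≤ α := by rw [hαdef]; linarith
  have hBD : B = 1 + D / 8 := by rw [hBdef, hδdef]; ring
  -- existence of minimal couplings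
  have hprob : ∀ i, IsProbabilityMeasure (mus α θ δ i) := by
    intro i
    fin_cases i
    · exact prob_mu1 α θ
    · exact prob_mu2 α θ
    · exact prob_mu3 δ
  have hmom : ∀ i, ∫⁻ x, ENNReal.ofReal (‖x‖ ^ 2) ∂(mus α θ δ i) < ⊤ := by
    intro i
    fin_cases i
    · exact (memLp_of_coord _ _ (mu1_lintegral_sq α θ)).2
    · exact (memLp_of_coord _ _ (mu2_lintegral_sq α θ)).2
    · exact (memLp_of_coord _ _ (mu3_lintegral_sq δ)).2
  have hw : ∀ i : Fin 3, (0 : ℝ) < (fun _ : Fin 3 => (1 / 3 : ℝ)) i := fun _ => by norm_num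
  obtain ⟨m, π, hm, hπ, hfin, hmin⟩ :=
    exists_min (fun _ : Fin 3 => (1 / 3 : ℝ)) hw (mus α θ δ) hprob hmom
  have hbary : IsBarycenter (fun _ : Fin 3 => (1 / 3 : ℝ)) (mus α θ δ) m :=
    isBarycenter_of_min _ hw _ m π hm hπ hfin hmin
  -- the minimality for the reference couplings
  have hmin3 : cost (π 0) + cost (π 1) + cost (π 2) ≤
      cost (ref1 B α θ) + cost (ref2 B α θ) + cost (ref3 B δ) := by
    have h1 := hmin (nuref B) ![ref1 B α θ, ref2 B α θ, ref3 B δ] inferInstance (by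
      intro i
      fin_cases i
      · exact ref1_marg B α θ
      · exact ref2_marg B α θ
      · exact ref3_marg B δ)
    rw [Fin.sum_univ_three, Fin.sum_univ_three, ← mul_add, ← mul_add, ← mul_add, ← mul_add] at h1
    have h2 : (ENNReal.ofReal (1 / 3)) ≠ 0 := (ENNReal.ofReal_pos.2 (by norm_num)).ne'
    exact (ENNReal.mul_le_mul_iff_right h2 ENNReal.ofReal_ne_top).1 h1
  obtain ⟨lm, hstab⟩ := stability δ θ α B hδ hδ1 hθ hθδ rfl rfl m (π 0) (π 1) (π 2)
    (hπ 0) (hπ 1) (hπ 2) hmin3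
  have hπ2 : IsProbabilityMeasure (π 2) := by
    refine ⟨?_⟩
    have h1 : (π 2).map Prod.fst univ = 1 := by rw [(hπ 2).1]; exact hm.measure_univ
    rw [Measure.map_apply measurable_fst MeasurableSet.univ] at h1
    simpa using h1
  have hvar := var_lower δ cst (D / 8) hδ hc0.le (by linarith) (by positivity) m (π 2)
    (hπ 2).1 (hπ 2).2 lm
  have h2D : 1 + 2 * cst * cst = 1 + 2 * D := by rw [hDdef]; ring
  rw [h2D] at hvar
  have hnum := numeric D _ _ hD hD1 hstab hvar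
  -- the conclusion
  have hsq : Integrable (fun x : EuclideanSpace ℝ (Fin 4) => ‖x‖ ^ 2) m :=
    (memLp_two_iff_integrable_sq_norm (by fun_prop)).1 lm
  have hgrad : ∫ x, ‖fderiv ℝ (tf cst) x‖ ^ 2 ∂m ≤ 1 + D := by
    have h1 : ∀ x, ‖fderiv ℝ (tf cst) x‖ ^ 2 ≤ 1 + D := by
      intro x
      have h2 := norm_fderiv_tf cst x
      have h3 := pow_le_pow_left₀ (norm_nonneg _) h2 2
      rw [Real.sq_sqrt (by positivity)] at h3
      exact h3
    calc ∫ x, ‖fderiv ℝ (tf cst) x‖ ^ 2 ∂m ≤ ∫ _, (1 + D) ∂m := by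
          refine integral_mono_of_nonneg (Eventually.of_forall fun x => sq_nonneg _)
            (integrable_const _) (Eventually.of_forall h1)
      _ = 1 + D := by simp
  have hfinal : ENNReal.ofReal (B ^ 2) < poincareConstant m := by
    refine lt_poincare_of_lip m hsq (B ^ 2) (by positivity) (tf cst) (contDiff_tf cst)
      (√(1 + cst ^ 2)) (Real.sqrt_nonneg _) (norm_fderiv_tf cst) ?_
    refine lt_of_le_of_lt ?_ hnum
    rw [hBD]
    gcongr
  have hsum : ∑ i : Fin 3, (fun _ : Fin 3 => (1 / 3 : ℝ)) i / √(kap α δ i) = B := by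
    rw [Fin.sum_univ_three]
    have s1 : √((α ^ 2)⁻¹) = α⁻¹ := by
      rw [Real.sqrt_inv, Real.sqrt_sq hα.le]
    have s2 : √((4 * δ ^ 2)⁻¹) = (2 * δ)⁻¹ := by
      have : 4 * δ ^ 2 = (2 * δ) ^ 2 := by ring
      rw [Real.sqrt_inv, this, Real.sqrt_sq (by positivity)]
    have k0 : kap α δ 0 = (α ^ 2)⁻¹ := rfl
    have k1 : kap α δ 1 = (α ^ 2)⁻¹ := rfl
    have k2 : kap α δ 2 = (4 * δ ^ 2)⁻¹ := rfl
    rw [k0, k1, k2, s1, s2]
    simp only [div_inv_eq_mul]
    rw [hBdef, hαdef]; ring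
  refine ⟨fun _ => 1 / 3, kap α δ, mus α θ δ, e0, m, fun _ => rfl, hw, by simp, ?_, ?_, norm_e0, ?_,
    hbary, ?_⟩
  · intro i
    fin_cases i
    · show 0 < (α ^ 2)⁻¹; positivity
    · show 0 < (α ^ 2)⁻¹; positivity
    · show 0 < (4 * δ ^ 2)⁻¹; positivity
  · intro i
    fin_cases i
    · exact slc_mu1 α θ hα hθ hθα
    · exact slc_mu2 α θ hα hθ hθα
    · exact slc_mu3 δ hδ
  · intro i
    fin_cases i
    · exact split_mu1 α θ
    · exact split_mu2 α θ
    · exact split_mu3 δ hδ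
  · rw [hsum]; exact hfinal

end Pool.Agent.Results.MP_7c2736_pr.BarycenterDisproof
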